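import Pool.Agent.Helper17.SLD.Goals
import Pool.Agent.Helper12.SL.GA1
import Pool.Agent.Helper12.SL.GA7
import Pool.Agent.Helper45.SL.GA5
import Pool.Agent.Helper60.SL.DETP

/-!
# Project SLD (MP_fc6b1e_nt), packet GB: a good type gives a basis
-/

namespace Pool.Agent.Helper17.SLD.PkGB

open Pool.Agent.Helper17.SL Pool.Agent.Helper42.SLC Pool.Agent.Helper17.SLD
open Pool.Agent.Helper51.SigLeo Pool.Agent.Helper51.SixExp NumberField Module TensorProduct

universe u v w x

/-- The value of the `k`-linear extension of `j ∘ F` at a scalar extension. -/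
theorem Phi_ext' {E k : Type*} [Field E] [Field k] (j : E →+* k) (U : Type*) [AddCommGroup U]
    (F : (E ⊗[ℤ] U) →ₗ[E] E) (x : E ⊗[ℤ] U) :
    Phi j ((j : E →+ k).comp (F.toAddMonoidHom.comp (TensorProduct.mk ℤ E U 1).toAddMonoidHom)) x =
      j (F x) := by
  induction x using TensorProduct.induction_on with
  | zero => simp
  | tmul a m =>
    rw [Phi_tmul]
    show j a • j (F ((1 : E) ⊗ₜ[ℤ] m)) = _
    rw [smul_eq_mul, ← map_mul, ← smul_eq_mul a, ← map_smul, TensorProduct.smul_tmul', smul_eq_mul,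
      mul_one]
  | add x y hx hy => rw [map_add, map_add, map_add, hx, hy]

/-- Linear independence is preserved by extension of scalars. -/
theorem indep_ext {E k : Type*} [Field E] [Field k] (j : E →+* k) (U : Type*) [AddCommGroup U]
    {n : ℕ} (z : Fin n → E ⊗[ℤ] U) (hz : LinearIndependent E z) (y : Fin n → k)
    (hy : ∑ i, y i • Phi j (PkGA5.one1 k U) (z i) = 0) : ∀ i, y i = 0 := by
  intro i
  have h1 := (linearIndependent_iff_notMem_span.1 hz) i
  obtain ⟨F, hF1, hF2⟩ := Submodule.exists_le_ker_of_notMem h1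
  have h2 := congrArg (extHom ((j : E →+ k).comp (F.toAddMonoidHom.comp
      (TensorProduct.mk ℤ E U 1).toAddMonoidHom))) hy
  rw [map_sum, map_zero, Finset.sum_eq_single i] at h2
  · rw [map_smul, PkGA5.extHom_Phi, Phi_ext', smul_eq_mul] at h2
    exact (mul_eq_zero.1 h2).resolve_right fun h3 ↦ hF1 ((map_eq_zero j).1 h3)
  · intro i' _ hi'
    rw [map_smul, PkGA5.extHom_Phi, Phi_ext']
    have h3 : F (z i') = 0 := hF2 (Submodule.subset_span ⟨i', by simpa using hi', rfl⟩)
    rw [h3, map_zero, smul_zero]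
  · intro h3
    exact absurd (Finset.mem_univ _) h3

/-- A CM type with `n` distinct elements, `2 n` the degree, has no other element. -/
theorem mem_of_cmType {K : Type*} [Field K] [NumberField K] {S : Set (K →+* ℂ)} (hS : IsCMType S)
    {n : ℕ} (hn : finrank ℚ K = 2 * n) (φ : Fin n → K →+* ℂ) (hφ : Function.Injective φ)
    (hφS : ∀ i, φ i ∈ S) (ψ : K →+* ℂ) (hψ : ψ ∈ S) : ∃ i, φ i = ψ := by
  classical
  by_contra hcon
  push Not at hcon
  let f : Option (Fin n) → (K →+* ℂ) := fun o ↦ o.elim ψ φ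
  have hf : ∀ o, f o ∈ S := by
    rintro (_ | i)
    · exact hψ
    · exact hφS i
  have hfinj : Function.Injective f := by
    rintro (_ | i) (_ | i') h
    · rfl
    · exact absurd h.symm (hcon i')
    · exact absurd h (hcon i)
    · exact congrArg some (hφ h)
  let g : Option (Fin n) ⊕ Option (Fin n) → (K →+* ℂ) :=
    Sum.elim f (fun o ↦ ComplexEmbedding.conjugate (f o))
  have hginj : Function.Injective g := by
    rintro (o | o) (o' | o') h
    · exact congrArg Sum.inl (hfinj h)
    · exfalso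
      have h1 : f o = ComplexEmbedding.conjugate (f o') := h
      exact (hS _).1 (hf o') (h1 ▸ hf o)
    · exfalso
      have h1 : ComplexEmbedding.conjugate (f o) = f o' := h
      exact (hS _).1 (hf o) (h1 ▸ hf o')
    · have h1 : ComplexEmbedding.conjugate (f o) = ComplexEmbedding.conjugate (f o') := h
      exact congrArg Sum.inr (hfinj ((ComplexEmbedding.involutive_conjugate (K := K)).injective h1))
  have h1 := Fintype.card_le_of_injective g hginj
  rw [Embeddings.card, hn] at h1
  simp only [Fintype.card_sum, Fintype.card_option, Fintype.card_fin] at h1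
  omega

theorem thm (hLOW : S_LOW.{u, v}) : S_GB.{u, v, w, x} := by
  intro K _ _ _ H _ _ _ _ _ Ω _ _ _ p _ k _ _ ιinf ιp S χ Λ n τ hχ hK hS hgood hτS hτinj
  classical
  have hchar : CharZero k := charZero_of_padic p (k := k)
  have hfd : FiniteDimensional K H := FiniteDimensional.right ℚ K H
  -- the field of values
  obtain ⟨E, hE, χ', hχ'⟩ := PkGA1.thm Ω k ιp (H ≃ₐ[K] H) χ
  set lam : E →+* Ω := algebraMap E Ω with hlam
  have hj : ∀ g, (ιp.comp lam) ((χ' g : Eˣ) : E) = χ g := fun g ↦ hχ' g
  set ε : E →+* ℂ := ιinf.comp lam with hε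
  have hχ1 : (Units.map (ε : E →* ℂ)).comp χ' ≠ 1 := by
    intro h
    apply hχ
    ext g
    rw [← hj]
    have h3 : ((χ' g : Eˣ) : E) = 1 := by
      apply ε.injective
      have := congrArg (fun z : ℂˣ ↦ (z : ℂ)) (DFunLike.congr_fun h g)
      simpa using this
    rw [h3]
    simp
  -- the archimedean functions are independent
  have hlow := hLOW K H ((Units.map (ε : E →* ℂ)).comp χ') n (fun i ↦ ιinf.comp (τ i)) hχ1
    (by
      intro i i' hii h
      rcases InfinitePlace.mk_eq_iff.mp h with h1 | h1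
      · apply hii
        apply hτinj
        show (τ i).comp (algebraMap K H) = (τ i').comp (algebraMap K H)
        ext y
        apply ιinf.injective
        exact RingHom.congr_fun h1 y
      · have h2 : ComplexEmbedding.conjugate (ιinf.comp ((τ i).comp (algebraMap K H))) ∈ S := by
          have h3 : ComplexEmbedding.conjugate (ιinf.comp ((τ i).comp (algebraMap K H))) =
              ιinf.comp ((τ i').comp (algebraMap K H)) := h1
          rw [h3]
          exact hτS i'
        exact (hS _).mp (hτS i) h2)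
    (by
      intro i c hc
      exfalso
      apply conjugate_ne ((ιinf.comp (τ i)).comp (algebraMap K H))
      rw [← ComplexEmbedding.conjugate_comp, hc]
      ext y
      show ιinf (τ i (c (algebraMap K H y))) = ιinf (τ i (algebraMap K H y))
      rw [AlgEquiv.commutes])
  have hli : LinearIndependent ℂ (fun (i : Fin n) (v : Additive (𝓞 H)ˣ) ↦
      tw ((Units.map (ε : E →* ℂ)).comp χ') (archLog (ιinf.comp (τ i))) v) := by
    rw [Fintype.linearIndependent_iff]
    intro c hc
    have h1 := hlow c (fun v ↦ by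
      have h2 := congrFun hc v
      simpa [Finset.sum_apply] using h2)
    intro i
    exact congrFun h1 i
  obtain ⟨u, hu⟩ := PkDETP.thm ℂ (Additive (𝓞 H)ˣ) n _ hli
  refine ⟨u, ?_⟩
  -- independence over `E`
  have hz : LinearIndependent E (fun i ↦ tchi χ' (u i)) := by
    rw [Fintype.linearIndependent_iff]
    intro e he
    have h1 : Matrix.mulVec (Matrix.of fun i j ↦ tw ((Units.map (ε : E →* ℂ)).comp χ')
        (archLog (ιinf.comp (τ i))) (u j)) (fun j ↦ ε (e j)) = 0 := by
      funext i
      have h2 := congrArg (Phi ε (archLog (ιinf.comp (τ i)))) he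
      rw [map_sum, map_zero] at h2
      show ∑ j, tw ((Units.map (ε : E →* ℂ)).comp χ') (archLog (ιinf.comp (τ i))) (u j) *
        ε (e j) = 0
      rw [← h2]
      refine Finset.sum_congr rfl fun j _ ↦ ?_
      rw [Phi_smul, Phi_eq_tw', smul_eq_mul, mul_comm]
    have h3 := Matrix.eq_zero_of_mulVec_eq_zero hu h1
    intro i
    exact (map_eq_zero ε).1 (congrFun h3 i)
  rw [Fintype.linearIndependent_iff]
  intro y hy
  have hy' : ∀ i, ∑ j, y j * tw χ (logUnits Λ (ιp.comp (τ i))) (u j) = 0 := by
    intro i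
    have h2 := congrFun hy i
    simpa [Finset.sum_apply] using h2
  -- the element of `k ⊗ U`
  have hsum : eChi (finrank K H) χ unitsHom (∑ j, y j ⊗ₜ[ℤ] u j) =
      ∑ j, ((finrank K H : k)⁻¹ * y j) •
        Phi (ιp.comp lam) (PkGA5.one1 k (Additive (𝓞 H)ˣ)) (tchi χ' (u j)) := by
    have h1 : ∀ s : Finset (Fin n), eChi (finrank K H) χ unitsHom (∑ j ∈ s, y j ⊗ₜ[ℤ] u j) =
        ∑ j ∈ s, ((finrank K H : k)⁻¹ * y j) •
          Phi (ιp.comp lam) (PkGA5.one1 k (Additive (𝓞 H)ˣ)) (tchi χ' (u j)) := by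
      intro s
      induction s using Finset.induction_on with
      | empty => rw [Finset.sum_empty, Finset.sum_empty, PkGA5.eChi_zero]
      | insert a s ha ih =>
        rw [Finset.sum_insert ha, Finset.sum_insert ha, PkGA5.eChi_add, ih,
          PkGA5.eChi_tmul (finrank K H) (ιp.comp lam) χ χ' hj]
    exact h1 _
  have hzero : eChi (finrank K H) χ unitsHom (∑ j, y j ⊗ₜ[ℤ] u j) = 0 := by
    apply hgood
    rintro ℓ ⟨σ, hσS, rfl⟩
    obtain ⟨i, hi⟩ := mem_of_cmType hS hK (fun i ↦ ιinf.comp ((τ i).comp (algebraMap K H)))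
      (by
        intro i i' h
        apply hτinj
        show (τ i).comp (algebraMap K H) = (τ i').comp (algebraMap K H)
        ext y
        apply ιinf.injective
        exact RingHom.congr_fun h y) hτS _ hσS
    have hres : (τ i).comp (algebraMap K H) = σ.comp (algebraMap K H) := by
      ext y
      apply ιinf.injective
      exact RingHom.congr_fun hi y
    obtain ⟨h, hh⟩ := PkGA7.thm K H Ω (τ i) σ hres
    have hσ : logUnits Λ (ιp.comp σ) = logUnits Λ ((ιp.comp (τ i)).comp (h : H →+* H)) := by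
      rw [hh]; rfl
    rw [hsum, map_sum, hσ]
    have h2 : ∀ j, extHom (logUnits Λ ((ιp.comp (τ i)).comp (h : H →+* H)))
        (((finrank K H : k)⁻¹ * y j) •
          Phi (ιp.comp lam) (PkGA5.one1 k (Additive (𝓞 H)ˣ)) (tchi χ' (u j))) =
        (finrank K H : k)⁻¹ * ((χ h : kˣ) : k) *
          (y j * tw χ (logUnits Λ (ιp.comp (τ i))) (u j)) := by
      intro j
      rw [map_smul, PkGA5.extHom_Phi, Phi_eq_tw (ιp.comp lam) χ' χ hj, tw_logUnits_comp,
        smul_eq_mul]
      ring
    rw [Finset.sum_congr rfl fun j _ ↦ h2 j, ← Finset.mul_sum, hy' i, mul_zero]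
  rw [hsum] at hzero
  have hfin := indep_ext (ιp.comp lam) (Additive (𝓞 H)ˣ) (fun i ↦ tchi χ' (u i)) hz
    (fun j ↦ (finrank K H : k)⁻¹ * y j) hzero
  have hn0 : (finrank K H : k)⁻¹ ≠ 0 :=
    inv_ne_zero (Nat.cast_ne_zero.2 (finrank_pos (R := K) (M := H)).ne')
  intro i
  exact (mul_eq_zero.1 (hfin i)).resolve_left hn0

end Pool.Agent.Helper17.SLD.PkGB
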